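import Mathlib
import Pool.Agent.Results.MP_c77999_an.StrictMono

/-!
# A lower bound for the maximal Schur multiplier norm of sign matrices
-/

open Matrix Pool.Agent.Results.MP_c77999_an.StrictMono

open scoped Matrix.Norms.L2Operator

namespace Pool.Agent.Lib_helper58.SN

/-- A real matrix does not increase the Euclidean norm of real vectors. -/
def Contr {ι : Type*} [Fintype ι] (A : Matrix ι ι ℝ) : Prop :=
  ∀ v : ι → ℝ, ∑ a, (A *ᵥ v) a ^ 2 ≤ ∑ a, v a ^ 2

theorem lower {ι : Type*} [Fintype ι] [DecidableEq ι] (n : ℕ) (hn : Fintype.card ι = n)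
    (M A : Matrix ι ι ℝ) (hM : ∀ a b, M a b = 1 ∨ M a b = -1) (hA : Contr A)
    (x y : ι → ℝ) (hx : ∑ a, x a ^ 2 = 1) (hy : ∑ a, y a ^ 2 = 1) :
    ∑ a, ∑ b, x a * (M a b * A a b) * y b ≤ r n := by
  classical
  let e : Fin n ≃ ι := (Fintype.equivFinOfCardEq hn).symm
  set M' : Matrix (Fin n) (Fin n) ℂ := fun i j => ((M (e i) (e j) : ℝ) : ℂ) with hM'
  set A' : Matrix (Fin n) (Fin n) ℂ := fun i j => ((A (e i) (e j) : ℝ) : ℂ) with hA'
  have hsign : M' ∈ signMatrices n := by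
    intro i j
    rcases hM (e i) (e j) with h | h
    · left; simp [hM', h]
    · right; simp [hM', h]
  have hnorm : ‖A'‖ ≤ 1 := by
    apply norm_le_one_of
    intro v
    have h1 : ∀ i, (A' *ᵥ v) i = ((A *ᵥ (fun a => (v (e.symm a)).re)) (e i) : ℂ)
        + ((A *ᵥ (fun a => (v (e.symm a)).im)) (e i) : ℂ) * Complex.I := by
      intro i
      simp only [Matrix.mulVec, dotProduct, hA']
      rw [← Equiv.sum_comp e, ← Equiv.sum_comp e]
      push_cast
      rw [Finset.sum_mul, ← Finset.sum_add_distrib]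
      refine Finset.sum_congr rfl fun j _ => ?_
      rw [Equiv.symm_apply_apply]
      conv_lhs => rw [← Complex.re_add_im (v j)]
      ring
    have h2 : ∀ (p q : ℝ), ‖(p : ℂ) + (q : ℂ) * Complex.I‖ ^ 2 = p ^ 2 + q ^ 2 := by
      intro p q
      rw [← Complex.normSq_eq_norm_sq, Complex.normSq_add_mul_I]
    have h3 : ∑ i, ‖(A' *ᵥ v) i‖ ^ 2
        = ∑ a, (A *ᵥ (fun a => (v (e.symm a)).re)) a ^ 2
          + ∑ a, (A *ᵥ (fun a => (v (e.symm a)).im)) a ^ 2 := by
      rw [← Equiv.sum_comp e, ← Equiv.sum_comp e (fun a => (A *ᵥ (fun a => (v (e.symm a)).im)) a ^ 2),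
        ← Finset.sum_add_distrib]
      refine Finset.sum_congr rfl fun i _ => ?_
      rw [h1 i, h2]
    have h4 : ∑ j, ‖v j‖ ^ 2 = ∑ a, (v (e.symm a)).re ^ 2 + ∑ a, (v (e.symm a)).im ^ 2 := by
      rw [← Equiv.sum_comp e, ← Equiv.sum_comp e (fun a => (v (e.symm a)).im ^ 2),
        ← Finset.sum_add_distrib]
      refine Finset.sum_congr rfl fun i _ => ?_
      rw [Equiv.symm_apply_apply]
      conv_lhs => rw [← Complex.re_add_im (v i)]
      rw [h2]
    rw [h3, h4]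
    exact add_le_add (hA _) (hA _)
  refine le_trans ?_ (le_trans (le_schurNorm M' A' hnorm) (schurNorm_le_r hsign))
  -- the bilinear value
  set z : ι → ℝ := fun a => ∑ b, M a b * A a b * y b with hz
  have h5 : ∑ a, ∑ b, x a * (M a b * A a b) * y b = ∑ a, x a * z a := by
    refine Finset.sum_congr rfl fun a _ => ?_
    rw [hz, Finset.mul_sum]
    exact Finset.sum_congr rfl fun b _ => by ring
  have h6 := mulVec_sq_le (Matrix.hadamard M' A') (fun i => ((y (e i) : ℝ) : ℂ))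
  have h7 : ∀ i, (Matrix.hadamard M' A' *ᵥ fun i => ((y (e i) : ℝ) : ℂ)) i = ((z (e i) : ℝ) : ℂ) := by
    intro i
    simp only [Matrix.mulVec, dotProduct, Matrix.hadamard_apply, hM', hA', hz]
    rw [← Equiv.sum_comp e]
    push_cast
    rfl
  have h8 : ∑ i, ‖(Matrix.hadamard M' A' *ᵥ fun i => ((y (e i) : ℝ) : ℂ)) i‖ ^ 2
      = ∑ a, z a ^ 2 := by
    rw [← Equiv.sum_comp e]
    refine Finset.sum_congr rfl fun i _ => ?_
    rw [h7 i, Complex.norm_real, Real.norm_eq_abs, sq_abs]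
  have h9 : ∑ j, ‖((y (e j) : ℝ) : ℂ)‖ ^ 2 = 1 := by
    rw [← hy, ← Equiv.sum_comp e (fun a => y a ^ 2)]
    refine Finset.sum_congr rfl fun i _ => ?_
    rw [Complex.norm_real, Real.norm_eq_abs, sq_abs]
  rw [h8, h9, mul_one] at h6
  have h10 : (∑ a, x a * z a) ^ 2 ≤ (∑ a, x a ^ 2) * ∑ a, z a ^ 2 :=
    Finset.sum_mul_sq_le_sq_mul_sq _ _ _
  rw [hx, one_mul] at h10
  rw [h5]
  exact (le_abs_self _).trans (abs_le_of_sq_le_sq (h10.trans h6) (norm_nonneg _))

end Pool.Agent.Lib_helper58.SN
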