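import Mathlib
import Pool.Agent.Lib_helper58.SN.Lower

/-!
# Orders near Hadamard orders
-/

open Matrix Pool.Agent.Results.MP_c77999_an.StrictMono

namespace Pool.Agent.Lib_helper58.SN

/-- A real Hadamard matrix: entries `1`, `-1`, and `H Hᵀ = N I`. -/
def IsHadamard {ι : Type*} [Fintype ι] [DecidableEq ι] (H : Matrix ι ι ℝ) : Prop :=
  (∀ a b, H a b = 1 ∨ H a b = -1) ∧ H * Hᵀ = (Fintype.card ι : ℝ) • (1 : Matrix ι ι ℝ)

section
variable {ι : Type*} [Fintype ι] [DecidableEq ι]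

lemma sq_entry {H : Matrix ι ι ℝ} (h : ∀ a b, H a b = 1 ∨ H a b = -1) (a b : ι) :
    H a b * H a b = 1 := by
  rcases h a b with h | h <;> rw [h] <;> norm_num

lemma had_transpose [Nonempty ι] {H : Matrix ι ι ℝ} (h : IsHadamard H) :
    Hᵀ * H = (Fintype.card ι : ℝ) • (1 : Matrix ι ι ℝ) := by
  have hN : (Fintype.card ι : ℝ) ≠ 0 := by
    exact_mod_cast Fintype.card_ne_zero
  have h1 : H * ((Fintype.card ι : ℝ)⁻¹ • Hᵀ) = 1 := by
    rw [Matrix.mul_smul, h.2, smul_smul, inv_mul_cancel₀ hN, one_smul]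
  have h2 := mul_eq_one_comm.mp h1
  rw [Matrix.smul_mul] at h2
  rw [← h2, smul_smul, mul_inv_cancel₀ hN, one_smul]

/-- `‖H v‖² = N ‖v‖²` -/
lemma had_norm [Nonempty ι] {H : Matrix ι ι ℝ} (h : IsHadamard H) (v : ι → ℝ) :
    ∑ a, (H *ᵥ v) a ^ 2 = (Fintype.card ι : ℝ) * ∑ a, v a ^ 2 := by
  have h1 : ∑ a, (H *ᵥ v) a ^ 2 = (H *ᵥ v) ⬝ᵥ (H *ᵥ v) := by
    simp only [dotProduct, sq]
  have h2 : ∑ a, v a ^ 2 = v ⬝ᵥ v := by
    simp only [dotProduct, sq]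
  rw [h1, h2, Matrix.dotProduct_mulVec, ← Matrix.mulVec_transpose, Matrix.mulVec_mulVec,
    had_transpose h, Matrix.smul_mulVec, Matrix.one_mulVec, smul_dotProduct, smul_eq_mul]

/-- `r N ≥ √N` for a Hadamard order. -/
lemma hadamard_lower [Nonempty ι] {H : Matrix ι ι ℝ} (h : IsHadamard H) :
    √(Fintype.card ι : ℝ) ≤ r (Fintype.card ι) := by
  set N : ℝ := (Fintype.card ι : ℝ) with hN
  have hN0 : 0 < N := by rw [hN]; exact_mod_cast Fintype.card_pos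
  have hs : 0 < √N := Real.sqrt_pos.mpr hN0
  have hss : √N * √N = N := Real.mul_self_sqrt hN0.le
  have h1 := lower (Fintype.card ι) rfl H ((√N)⁻¹ • H) h.1 (by
    intro v
    have h2 : ∀ a, (((√N)⁻¹ • H) *ᵥ v) a ^ 2 = N⁻¹ * (H *ᵥ v) a ^ 2 := by
      intro a
      rw [Matrix.smul_mulVec, Pi.smul_apply, smul_eq_mul, mul_pow, inv_pow, Real.sq_sqrt hN0.le]
    simp only [h2]
    rw [← Finset.mul_sum, had_norm h, ← mul_assoc, inv_mul_cancel₀ hN0.ne', one_mul])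
    (fun _ => (√N)⁻¹) (fun _ => (√N)⁻¹)
    (by rw [Finset.sum_const, Finset.card_univ, nsmul_eq_mul, inv_pow, Real.sq_sqrt hN0.le,
      mul_inv_cancel₀ hN0.ne'])
    (by rw [Finset.sum_const, Finset.card_univ, nsmul_eq_mul, inv_pow, Real.sq_sqrt hN0.le,
      mul_inv_cancel₀ hN0.ne'])
  refine le_trans (le_of_eq ?_) h1
  have h3 : ∀ a b, (√N)⁻¹ * (H a b * ((√N)⁻¹ • H) a b) * (√N)⁻¹ = (√N)⁻¹ * N⁻¹ := by
    intro a b
    rw [Matrix.smul_apply, smul_eq_mul]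
    have h4 := sq_entry h.1 a b
    calc (√N)⁻¹ * (H a b * ((√N)⁻¹ * H a b)) * (√N)⁻¹
        = (√N)⁻¹ * ((√N)⁻¹ * (√N)⁻¹) * (H a b * H a b) := by ring
      _ = (√N)⁻¹ * N⁻¹ := by rw [h4, mul_one, ← mul_inv, hss]
  simp only [h3, Finset.sum_const, Finset.card_univ, nsmul_eq_mul]
  rw [← hN]
  field_simp
  rw [Real.sq_sqrt hN0.le]

end

section core
/-- Removing one row and one column of a Hadamard matrix. -/
lemma core_lower {n : ℕ} (hn : 1 ≤ n) {H : Matrix (Fin n ⊕ Fin 1) (Fin n ⊕ Fin 1) ℝ}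
    (h : IsHadamard H) : √((n : ℝ) - 1) < r n := by
  have hcard : (Fintype.card (Fin n ⊕ Fin 1) : ℝ) = n + 1 := by
    simp
  set N : ℝ := n + 1 with hN
  have hn0 : (0 : ℝ) < n := by exact_mod_cast hn
  have hN0 : 0 < N := by positivity
  have hs : 0 < √N := Real.sqrt_pos.mpr hN0
  have hsn : 0 < √(n : ℝ) := Real.sqrt_pos.mpr hn0
  set M : Matrix (Fin n) (Fin n) ℝ := fun i j => H (Sum.inl i) (Sum.inl j) with hM
  have hMs : ∀ a b, M a b = 1 ∨ M a b = -1 := fun a b => h.1 _ _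
  have hMn : ∀ v : Fin n → ℝ, ∑ a, (M *ᵥ v) a ^ 2 ≤ N * ∑ a, v a ^ 2 := by
    intro v
    have h1 := had_norm h (Sum.elim v (fun _ => 0))
    rw [hcard, Fintype.sum_sum_type, Fintype.sum_sum_type] at h1
    simp only [Sum.elim_inl, Sum.elim_inr] at h1
    have h2 : ∀ i, (H *ᵥ Sum.elim v (fun _ => 0)) (Sum.inl i) = (M *ᵥ v) i := by
      intro i
      simp [Matrix.mulVec, dotProduct, Fintype.sum_sum_type, hM]
    simp only [h2] at h1
    have h3 : 0 ≤ ∑ x : Fin 1, (H *ᵥ Sum.elim v (fun _ => 0)) (Sum.inr x) ^ 2 :=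
      Finset.sum_nonneg fun _ _ => sq_nonneg _
    have h4 : ∑ x : Fin 1, (0 : ℝ) ^ 2 = 0 := by simp
    rw [h4, add_zero] at h1
    linarith
  have h1 := lower n (by simp) M ((√N)⁻¹ • M) hMs (by
    intro v
    have h2 : ∀ a, (((√N)⁻¹ • M) *ᵥ v) a ^ 2 = N⁻¹ * (M *ᵥ v) a ^ 2 := by
      intro a
      rw [Matrix.smul_mulVec, Pi.smul_apply, smul_eq_mul, mul_pow, inv_pow, Real.sq_sqrt hN0.le]
    simp only [h2]
    rw [← Finset.mul_sum, inv_mul_le_iff₀ hN0]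
    exact hMn v)
    (fun _ => (√(n : ℝ))⁻¹) (fun _ => (√(n : ℝ))⁻¹)
    (by rw [Finset.sum_const, Finset.card_univ, nsmul_eq_mul, inv_pow, Real.sq_sqrt hn0.le,
      Fintype.card_fin, mul_inv_cancel₀ hn0.ne'])
    (by rw [Finset.sum_const, Finset.card_univ, nsmul_eq_mul, inv_pow, Real.sq_sqrt hn0.le,
      Fintype.card_fin, mul_inv_cancel₀ hn0.ne'])
  have h3 : ∀ a b, (√(n : ℝ))⁻¹ * (M a b * ((√N)⁻¹ • M) a b) * (√(n : ℝ))⁻¹
      = (n : ℝ)⁻¹ * (√N)⁻¹ := by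
    intro a b
    rw [Matrix.smul_apply, smul_eq_mul]
    have h4 := sq_entry hMs a b
    calc (√(n : ℝ))⁻¹ * (M a b * ((√N)⁻¹ * M a b)) * (√(n : ℝ))⁻¹
        = ((√(n : ℝ))⁻¹ * (√(n : ℝ))⁻¹) * (√N)⁻¹ * (M a b * M a b) := by ring
      _ = (n : ℝ)⁻¹ * (√N)⁻¹ := by
        rw [h4, mul_one, ← mul_inv, Real.mul_self_sqrt hn0.le]
  simp only [h3, Finset.sum_const, Finset.card_univ, nsmul_eq_mul, Fintype.card_fin] at h1
  refine lt_of_lt_of_le ?_ h1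
  have h5 : (n : ℝ) * (n * ((n : ℝ)⁻¹ * (√N)⁻¹)) = n / √N := by
    field_simp
  rw [h5, Real.sqrt_lt' (by positivity), div_pow, Real.sq_sqrt hN0.le, lt_div_iff₀ hN0, hN]
  nlinarith

end core

end Pool.Agent.Lib_helper58.SN
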