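import Mathlib
import Pool.Agent.Lib_helper58.SN.Two

/-!
# Two more rows and columns
-/

open Matrix Pool.Agent.Results.MP_c77999_an.StrictMono

namespace Pool.Agent.Lib_helper58.SN

section
variable {ι : Type*} [Fintype ι] [DecidableEq ι]

/-- the sign matrix of order `N + 2` -/
def bigM (H : Matrix ι ι ℝ) (x y : Fin 2 → ι → ℝ) : Matrix (ι ⊕ Fin 2) (ι ⊕ Fin 2) ℝ :=
  fun a b => match a, b with
  | Sum.inl a, Sum.inl b => H a b
  | Sum.inl a, Sum.inr k => x k a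
  | Sum.inr k, Sum.inl b => y k b
  | Sum.inr _, Sum.inr _ => -1

/-- the contraction -/
noncomputable def bigA (H : Matrix ι ι ℝ) (x y : Fin 2 → ι → ℝ) (s : ℝ) :
    Matrix (ι ⊕ Fin 2) (ι ⊕ Fin 2) ℝ :=
  fun a b => match a, b with
  | Sum.inl a, Sum.inl b => H a b / s - (1 / (2 * s ^ 2)) * (x 0 a * y 0 b + x 1 a * y 1 b)
  | Sum.inl a, Sum.inr k => √3 / (2 * s) * x k a
  | Sum.inr k, Sum.inl b => √3 / (2 * s) * y k b
  | Sum.inr k, Sum.inr l => if k = l then -(1 / 2) else 0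

lemma contr_big [Nonempty ι] {H : Matrix ι ι ℝ} (h : IsHadamard H) (x y : Fin 2 → ι → ℝ)
    (s : ℝ) (hs : 0 < s) (hss : s ^ 2 = Fintype.card ι)
    (hx : ∀ k, ∑ a, x k a * x k a = s ^ 2) (hx01 : ∑ a, x 0 a * x 1 a = 0)
    (hxy : ∀ k, x k ᵥ* H = s • y k) : Contr (bigA H x y s) := by
  intro v
  set w : ι → ℝ := fun a => v (Sum.inl a) with hw
  set p : Fin 2 → ℝ := fun k => ∑ b, y k b * w b with hp
  set g : Fin 2 → ℝ := fun k => -(p k / (2 * s ^ 2)) + √3 / (2 * s) * v (Sum.inr k) with hg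
  have h3 : √3 ^ 2 = (3 : ℝ) := Real.sq_sqrt (by norm_num)
  have h1 : ∀ a, (bigA H x y s *ᵥ v) (Sum.inl a)
      = (H *ᵥ w) a / s + (g 0 * x 0 a + g 1 * x 1 a) := by
    intro a
    simp only [Matrix.mulVec, dotProduct, Fintype.sum_sum_type, bigA, Fin.sum_univ_two]
    have e1 : ∑ b, (H a b / s - 1 / (2 * s ^ 2) * (x 0 a * y 0 b + x 1 a * y 1 b)) * v (Sum.inl b)
        = (∑ b, H a b * w b) / s - 1 / (2 * s ^ 2) * (x 0 a * p 0 + x 1 a * p 1) := by
      simp only [hp, hw]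
      rw [Finset.sum_div, Finset.mul_sum, Finset.mul_sum, ← Finset.sum_add_distrib,
        Finset.mul_sum, ← Finset.sum_sub_distrib]
      refine Finset.sum_congr rfl fun b _ => ?_
      ring
    rw [e1]
    simp only [hg]
    field_simp
    ring
  have h2 : ∀ k, (bigA H x y s *ᵥ v) (Sum.inr k)
      = √3 / (2 * s) * p k - v (Sum.inr k) / 2 := by
    intro k
    simp only [Matrix.mulVec, dotProduct, Fintype.sum_sum_type, bigA]
    have e1 : ∑ b, √3 / (2 * s) * y k b * v (Sum.inl b) = √3 / (2 * s) * p k := by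
      simp only [hp, hw]
      rw [Finset.mul_sum]
      exact Finset.sum_congr rfl fun b _ => by ring
    rw [e1]
    simp only [ite_mul, zero_mul, Finset.sum_ite_eq, Finset.mem_univ, if_true]
    ring
  have hq : ∀ k, ∑ a, x k a * (H *ᵥ w) a = s * p k := by
    intro k
    have e1 : ∑ a, x k a * (H *ᵥ w) a = x k ⬝ᵥ (H *ᵥ w) := rfl
    rw [e1, Matrix.dotProduct_mulVec, hxy k, smul_dotProduct, smul_eq_mul]
    rfl
  have hn := had_norm h w
  rw [← hss] at hn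
  have h4 : ∑ a, (bigA H x y s *ᵥ v) (Sum.inl a) ^ 2
      = ∑ a, w a ^ 2 + 2 * (g 0 * p 0 + g 1 * p 1) + s ^ 2 * (g 0 ^ 2 + g 1 ^ 2) := by
    have e1 : ∀ a, (bigA H x y s *ᵥ v) (Sum.inl a) ^ 2
        = (H *ᵥ w) a ^ 2 / s ^ 2 + (2 * g 0 / s * (x 0 a * (H *ᵥ w) a)
          + 2 * g 1 / s * (x 1 a * (H *ᵥ w) a))
          + (g 0 ^ 2 * (x 0 a * x 0 a) + g 1 ^ 2 * (x 1 a * x 1 a)
          + 2 * g 0 * g 1 * (x 0 a * x 1 a)) := by
      intro a
      rw [h1 a]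
      field_simp
      ring
    simp only [e1, Finset.sum_add_distrib, ← Finset.mul_sum, ← Finset.sum_div, hq, hx, hx01, hn]
    field_simp
    ring
  have h5 : ∑ a, v a ^ 2 = ∑ a, w a ^ 2 + (v (Sum.inr 0) ^ 2 + v (Sum.inr 1) ^ 2) := by
    rw [Fintype.sum_sum_type, Fin.sum_univ_two]
  rw [Fintype.sum_sum_type, h4, h5, Fin.sum_univ_two, h2, h2]
  apply le_of_eq
  simp only [hg]
  have h6 : ∀ (P z : ℝ), 2 * ((-(P / (2 * s ^ 2)) + √3 / (2 * s) * z) * P)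
      + s ^ 2 * (-(P / (2 * s ^ 2)) + √3 / (2 * s) * z) ^ 2 + (√3 / (2 * s) * P - z / 2) ^ 2
      = z ^ 2 := by
    intro P z
    field_simp
    have h7 : √3 ^ 2 = (3 : ℝ) := h3
    ring_nf
    rw [h7]
    ring
  have h70 := h6 (p 0) (v (Sum.inr 0))
  have h71 := h6 (p 1) (v (Sum.inr 1))
  linarith

end

end Pool.Agent.Lib_helper58.SN
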