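import Mathlib
import Pool.Agent.Lib_helper58.SN.Ext

/-!
# The value at the order `N + 2`
-/

open Matrix Pool.Agent.Results.MP_c77999_an.StrictMono

namespace Pool.Agent.Lib_helper58.SN

section
variable {ι : Type*} [Fintype ι] [DecidableEq ι]

lemma poly_ineq (s : ℝ) (hs : 1 ≤ s) :
    (s ^ 2 + 1) * (s ^ 2 + 3 / 2) ^ 2 < (s * (s ^ 2 + 2) + 3 / 4) ^ 2 := by
  have h1 : 0 ≤ s ^ 2 * (s - 1) := by
    have : 0 ≤ s - 1 := by linarith
    positivity
  nlinarith [mul_self_nonneg (s - 1)]

theorem two_lower [Nonempty ι] {H : Matrix ι ι ℝ} (h : IsHadamard H) (x y : Fin 2 → ι → ℝ)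
    (hx : ∀ k a, x k a = 1 ∨ x k a = -1) (hy : ∀ k a, y k a = 1 ∨ y k a = -1)
    (hxy : ∀ k, H *ᵥ y k = √(Fintype.card ι : ℝ) • x k) (hort : ∑ a, y 0 a * y 1 a = 0) :
    √((Fintype.card ι : ℝ) + 1) < r (Fintype.card ι + 2) := by
  set s : ℝ := √(Fintype.card ι : ℝ) with hs_def
  have hN1 : (1 : ℝ) ≤ Fintype.card ι := by exact_mod_cast Fintype.card_pos
  have hss : s ^ 2 = Fintype.card ι := Real.sq_sqrt (by linarith)
  have hs1 : 1 ≤ s := by
    rw [hs_def]; exact Real.one_le_sqrt.mpr hN1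
  have hs : 0 < s := by linarith
  have h3 : √3 ^ 2 = (3 : ℝ) := Real.sq_sqrt (by norm_num)
  -- the dual relation
  have hyx : ∀ k, x k ᵥ* H = s • y k := by
    intro k
    have e1 : x k = s⁻¹ • (H *ᵥ y k) := by
      rw [hxy k, smul_smul, inv_mul_cancel₀ hs.ne', one_smul]
    rw [← Matrix.mulVec_transpose, e1, Matrix.mulVec_smul, Matrix.mulVec_mulVec, had_transpose h,
      Matrix.smul_mulVec, Matrix.one_mulVec, smul_smul, ← hss]
    congr 1
    field_simp
  have hxx : ∀ k, ∑ a, x k a * x k a = s ^ 2 := by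
    intro k
    have e1 : ∀ a, x k a * x k a = 1 := fun a => by
      rcases hx k a with h | h <;> rw [h] <;> norm_num
    simp only [e1]
    rw [hss]; simp
  have hx01 : ∑ a, x 0 a * x 1 a = 0 := by
    have e1 : ∑ a, x 0 a * (s • x 1) a = ∑ b, (s • y 0) b * y 1 b := by
      rw [← hxy 1, ← hyx 0]
      exact Matrix.dotProduct_mulVec _ _ _
    have e2 : ∑ a, x 0 a * (s • x 1) a = s * ∑ a, x 0 a * x 1 a := by
      rw [Finset.mul_sum]
      exact Finset.sum_congr rfl fun a _ => by rw [Pi.smul_apply, smul_eq_mul]; ring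
    have e3 : ∑ b, (s • y 0) b * y 1 b = s * ∑ a, y 0 a * y 1 a := by
      rw [Finset.mul_sum]
      exact Finset.sum_congr rfl fun a _ => by rw [Pi.smul_apply, smul_eq_mul]; ring
    rw [e2, e3, hort, mul_zero] at e1
    rcases mul_eq_zero.mp e1 with h | h
    · exact absurd h hs.ne'
    · exact h
  have hcontr := contr_big h x y s hs hss hxx hx01 hyx
  set D : ℝ := s ^ 2 + 3 / 2 with hD
  have hD0 : 0 < D := by positivity
  set α : ℝ := (√D)⁻¹ with hα
  have hαsq : α ^ 2 = D⁻¹ := by rw [hα, inv_pow, Real.sq_sqrt hD0.le]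
  set X : ι ⊕ Fin 2 → ℝ := Sum.elim (fun _ => α) (fun _ => √3 / 2 * α) with hX
  have hXn : ∑ a, X a ^ 2 = 1 := by
    rw [Fintype.sum_sum_type, hX]
    simp only [Sum.elim_inl, Sum.elim_inr, Finset.sum_const, Finset.card_univ, nsmul_eq_mul,
      Fintype.card_fin, mul_pow, div_pow, h3, hαsq, ← hss]
    rw [hD]
    field_simp
    ring
  have hsgn : ∀ a b, bigM H x y a b = 1 ∨ bigM H x y a b = -1 := by
    rintro (a | k) (b | l)
    · exact h.1 a b
    · exact hx l a
    · exact hy k b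
    · exact Or.inr rfl
  have hl := lower (Fintype.card ι + 2) (by simp) (bigM H x y) (bigA H x y s) hsgn hcontr X X hXn hXn
  refine lt_of_lt_of_le ?_ hl
  -- the value
  have hHH : ∀ a b, H a b * H a b = 1 := sq_entry h.1
  have hxHy : ∀ k, ∑ a, ∑ b, H a b * (x k a * y k b) = s ^ 3 := by
    intro k
    have e1 : ∀ a, ∑ b, H a b * (x k a * y k b) = x k a * (H *ᵥ y k) a := by
      intro a
      simp only [Matrix.mulVec, dotProduct]
      rw [Finset.mul_sum]
      exact Finset.sum_congr rfl fun b _ => by ring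
    simp only [e1, hxy k, Pi.smul_apply, smul_eq_mul]
    have e2 : ∀ a, x k a * (s * x k a) = s * (x k a * x k a) := fun a => by ring
    simp only [e2, ← Finset.mul_sum, hxx k]
    ring
  have hyy : ∀ k, ∑ a, y k a * y k a = s ^ 2 := by
    intro k
    have e1 : ∀ a, y k a * y k a = 1 := fun a => by
      rcases hy k a with h | h <;> rw [h] <;> norm_num
    simp only [e1]
    rw [hss]; simp
  have hval : ∑ a, ∑ b, X a * (bigM H x y a b * bigA H x y s a b) * X b
      = α ^ 2 * (s * (s ^ 2 + 2) + 3 / 4) := by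
    rw [Fintype.sum_sum_type]
    simp only [Fintype.sum_sum_type, hX, Sum.elim_inl, Sum.elim_inr, bigM, bigA]
    have e11 : ∑ a, ∑ b, α * (H a b * (H a b / s - 1 / (2 * s ^ 2)
        * (x 0 a * y 0 b + x 1 a * y 1 b))) * α = α ^ 2 * (s ^ 3 - s) := by
      have e : ∀ a b, α * (H a b * (H a b / s - 1 / (2 * s ^ 2)
          * (x 0 a * y 0 b + x 1 a * y 1 b))) * α
          = α ^ 2 / s * (H a b * H a b) - α ^ 2 / (2 * s ^ 2) * (H a b * (x 0 a * y 0 b))
            - α ^ 2 / (2 * s ^ 2) * (H a b * (x 1 a * y 1 b)) := by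
        intro a b
        field_simp
        ring
      simp only [e, Finset.sum_sub_distrib, ← Finset.mul_sum, hxHy, hHH, Finset.sum_const,
        Finset.card_univ, nsmul_eq_mul, mul_one]
      rw [← hss]
      field_simp
      ring
    have e12 : ∑ a, ∑ k, α * (x k a * (√3 / (2 * s) * x k a)) * (√3 / 2 * α)
        = α ^ 2 * (3 / 2 * s) := by
      rw [Finset.sum_comm]
      have e : ∀ k a, α * (x k a * (√3 / (2 * s) * x k a)) * (√3 / 2 * α)
          = α ^ 2 * (√3 ^ 2 / (4 * s)) * (x k a * x k a) := by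
        intro k a
        field_simp
        ring
      simp only [e, ← Finset.mul_sum, hxx, h3, Finset.sum_const, Finset.card_univ, nsmul_eq_mul,
        Fintype.card_fin]
      field_simp
      ring
    have e21 : ∑ k, ∑ b, √3 / 2 * α * (y k b * (√3 / (2 * s) * y k b)) * α
        = α ^ 2 * (3 / 2 * s) := by
      have e : ∀ k b, √3 / 2 * α * (y k b * (√3 / (2 * s) * y k b)) * α
          = α ^ 2 * (√3 ^ 2 / (4 * s)) * (y k b * y k b) := by
        intro k b
        field_simp
        ring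
      simp only [e, ← Finset.mul_sum, hyy, h3, Finset.sum_const, Finset.card_univ, nsmul_eq_mul,
        Fintype.card_fin]
      field_simp
      ring
    have e22 : ∑ k : Fin 2, ∑ l : Fin 2, √3 / 2 * α * (-1 * (if k = l then -(1 / 2) else 0))
        * (√3 / 2 * α) = α ^ 2 * (3 / 4) := by
      simp only [Fin.sum_univ_two]
      norm_num
      ring_nf
      rw [h3]
      ring
    rw [Finset.sum_add_distrib, Finset.sum_add_distrib, e11, e12, e21, e22]
    ring
  rw [hval, hαsq, ← hss]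
  have hpos : 0 < D⁻¹ * (s * (s ^ 2 + 2) + 3 / 4) := by positivity
  rw [Real.sqrt_lt' hpos, mul_pow, inv_pow, inv_mul_eq_div, lt_div_iff₀ (by positivity)]
  exact poly_ineq s hs1

end

end Pool.Agent.Lib_helper58.SN
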