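import Mathlib
import Pool.Agent.Lib_helper58.SN.Val

/-!
# Orders near Hadamard orders: the statements
-/

open Matrix Pool.Agent.Results.MP_c77999_an.StrictMono

namespace Pool.Agent.Lib_helper58.SN

/-- There is a Hadamard matrix of order `N`. -/
def HadamardOrder (N : ℕ) : Prop := ∃ H : Matrix (Fin N) (Fin N) ℝ, IsHadamard H

/-- There are a Hadamard matrix `H` of order `N`, two orthogonal vectors `y 0`, `y 1` and two
vectors `x 0`, `x 1`, all with entries `1`, `-1`, such that `H y_k = √N x_k`. -/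
def BentPair (N : ℕ) : Prop :=
  ∃ (H : Matrix (Fin N) (Fin N) ℝ) (x y : Fin 2 → Fin N → ℝ), IsHadamard H ∧
    (∀ k a, x k a = 1 ∨ x k a = -1) ∧ (∀ k a, y k a = 1 ∨ y k a = -1) ∧
    (∀ k, H *ᵥ y k = √(N : ℝ) • x k) ∧ ∑ a, y 0 a * y 1 a = 0

lemma isHadamard_reindex {ι κ : Type*} [Fintype ι] [DecidableEq ι] [Fintype κ] [DecidableEq κ]
    (e : κ ≃ ι) {H : Matrix ι ι ℝ} (h : IsHadamard H) : IsHadamard (H.submatrix e e) := by
  refine ⟨fun a b => h.1 _ _, ?_⟩
  rw [Matrix.transpose_submatrix, Matrix.submatrix_mul_equiv, h.2, Fintype.card_congr e]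
  ext a b
  simp [Matrix.one_apply]

theorem near (n N : ℕ) (hn : 1 ≤ n) (hN : N = n + 1 ∨ N = n ∨ N + 1 = n) (h : HadamardOrder N) :
    √((n : ℝ) - 1) < r n := by
  obtain ⟨H, hH⟩ := h
  rcases hN with rfl | rfl | rfl
  · exact core_lower hn (isHadamard_reindex (finSumFinEquiv (m := n) (n := 1)) hH)
  · have : Nonempty (Fin N) := ⟨⟨0, hn⟩⟩
    have h1 := hadamard_lower hH
    rw [Fintype.card_fin] at h1
    refine lt_of_lt_of_le (Real.sqrt_lt_sqrt ?_ (by linarith)) h1
    have : (1 : ℝ) ≤ N := by exact_mod_cast hn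
    linarith
  · rcases Nat.eq_zero_or_pos N with h0 | h0
    · subst h0
      have := r_pos (n := 0 + 1) (by norm_num)
      simpa using this
    · have : Nonempty (Fin N) := ⟨⟨0, h0⟩⟩
      have h1 := hadamard_lower hH
      rw [Fintype.card_fin] at h1
      have h2 := Pool.Agent.Results.MP_c77999_an.StrictMono.result N h0
      have h3 : ((N + 1 : ℕ) : ℝ) - 1 = N := by push_cast; ring
      rw [h3]
      exact lt_of_le_of_lt h1 h2

theorem two (N : ℕ) (hN : 1 ≤ N) (h : BentPair N) :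
    √(((N + 2 : ℕ) : ℝ) - 1) < r (N + 2) := by
  obtain ⟨H, x, y, hH, hx, hy, hxy, ho⟩ := h
  have : Nonempty (Fin N) := ⟨⟨0, hN⟩⟩
  have h1 := two_lower hH x y hx hy (by rw [Fintype.card_fin]; exact hxy) ho
  rw [Fintype.card_fin] at h1
  have h3 : ((N + 2 : ℕ) : ℝ) - 1 = N + 1 := by push_cast; ring
  rw [h3]
  exact h1

/-! ### Sylvester matrices -/

/-- `J - 2 I` of order four -/
def S4 : Matrix (Fin 4) (Fin 4) ℝ := fun a b => if a = b then -1 else 1

lemma S4_sign (a b : Fin 4) : S4 a b = 1 ∨ S4 a b = -1 := by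
  unfold S4
  split_ifs
  · right; rfl
  · left; rfl

lemma S4_mul : S4 * S4ᵀ = (4 : ℝ) • (1 : Matrix (Fin 4) (Fin 4) ℝ) := by
  ext i j
  fin_cases i <;> fin_cases j <;>
    simp [Matrix.mul_apply, Fin.sum_univ_four, S4, Matrix.one_apply] <;> norm_num

lemma S4_sum (i : Fin 4) : ∑ j, S4 i j = 2 := by
  fin_cases i <;> simp [Fin.sum_univ_four, S4] <;> norm_num

/-- the same data on an arbitrary finite type -/
def Good (N : ℕ) : Prop :=
  ∃ (ι : Type) (_ : Fintype ι) (_ : DecidableEq ι) (H : Matrix ι ι ℝ) (x y : Fin 2 → ι → ℝ),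
    Fintype.card ι = N ∧ IsHadamard H ∧
    (∀ k a, x k a = 1 ∨ x k a = -1) ∧ (∀ k a, y k a = 1 ∨ y k a = -1) ∧
    (∀ k, H *ᵥ y k = √(N : ℝ) • x k) ∧ ∑ a, y 0 a * y 1 a = 0

lemma good_four : Good 4 := by
  have h4 : √(4 : ℝ) = 2 := by
    rw [show (4 : ℝ) = 2 ^ 2 by norm_num]; exact Real.sqrt_sq (by norm_num)
  refine ⟨Fin 4, inferInstance, inferInstance, S4, ![fun _ => 1, ![-1, -1, 1, 1]],
    ![fun _ => 1, ![1, 1, -1, -1]], by simp, ⟨S4_sign, ?_⟩, ?_, ?_, ?_, ?_⟩
  · rw [Fintype.card_fin]; exact_mod_cast S4_mul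
  · intro k a
    fin_cases k <;> fin_cases a <;> simp
  · intro k a
    fin_cases k <;> fin_cases a <;> simp
  · intro k
    rw [show ((4 : ℕ) : ℝ) = 4 by norm_num, h4]
    fin_cases k
    · ext i
      fin_cases i <;> simp [Matrix.mulVec, dotProduct, Fin.sum_univ_four, S4] <;> norm_num
    · ext i
      fin_cases i <;> simp [Matrix.mulVec, dotProduct, Fin.sum_univ_four, S4] <;> norm_num
  · simp [Fin.sum_univ_four]

lemma good_step {N : ℕ} (h : Good N) : Good (N * 4) := by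
  obtain ⟨ι, i1, i2, H, x, y, hc, hH, hx, hy, hxy, ho⟩ := h
  have h4 : √(4 : ℝ) = 2 := by
    rw [show (4 : ℝ) = 2 ^ 2 by norm_num]; exact Real.sqrt_sq (by norm_num)
  refine ⟨ι × Fin 4, inferInstance, inferInstance, Matrix.kroneckerMap (· * ·) H S4,
    fun k a => x k a.1, fun k a => y k a.1, by simp [hc], ⟨?_, ?_⟩, ?_, ?_, ?_, ?_⟩
  · intro a b
    rw [Matrix.kroneckerMap_apply]
    rcases hH.1 a.1 b.1 with h | h <;> rcases S4_sign a.2 b.2 with h' | h' <;> rw [h, h'] <;>
      norm_num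
  · rw [← Matrix.kroneckerMap_transpose]
    have h1 := Matrix.mul_kronecker_mul H Hᵀ S4 S4ᵀ
    have h2 : Matrix.kroneckerMap (· * ·) (H * Hᵀ) (S4 * S4ᵀ)
        = (Fintype.card (ι × Fin 4) : ℝ) • (1 : Matrix (ι × Fin 4) (ι × Fin 4) ℝ) := by
      rw [hH.2, S4_mul]
      ext a b
      rw [Matrix.kroneckerMap_apply]
      simp only [Matrix.smul_apply, smul_eq_mul, Matrix.one_apply, Fintype.card_prod,
        Fintype.card_fin, Prod.ext_iff]
      push_cast
      by_cases ha : a.1 = b.1 <;> by_cases hb : a.2 = b.2 <;> simp [ha, hb]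
    rw [← h2]
    exact h1.symm
  · intro k a; exact hx k a.1
  · intro k a; exact hy k a.1
  · intro k
    ext a
    have e1 : (Matrix.kroneckerMap (· * ·) H S4 *ᵥ fun b => y k b.1) a
        = (∑ b, H a.1 b * y k b) * ∑ j, S4 a.2 j := by
      simp only [Matrix.mulVec, dotProduct, Matrix.kroneckerMap_apply, Fintype.sum_prod_type]
      rw [Finset.sum_mul]
      refine Finset.sum_congr rfl fun b _ => ?_
      rw [Finset.mul_sum]
      exact Finset.sum_congr rfl fun j _ => by ring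
    have e2 : ∑ b, H a.1 b * y k b = √(N : ℝ) * x k a.1 := by
      have := congrFun (hxy k) a.1
      simpa [Matrix.mulVec, dotProduct] using this
    rw [e1, e2, S4_sum, Pi.smul_apply, smul_eq_mul]
    push_cast
    rw [Real.sqrt_mul (by positivity), h4]
    ring
  · rw [Fintype.sum_prod_type]
    simp only [Finset.sum_const, Finset.card_univ, nsmul_eq_mul, ← Finset.mul_sum, ho, mul_zero]

lemma good_pow (k : ℕ) (hk : 1 ≤ k) : Good (4 ^ k) := by
  induction k, hk using Nat.le_induction with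
  | base => rw [pow_one]; exact good_four
  | succ k hk ih => rw [pow_succ]; exact good_step ih

lemma bent_of_good {N : ℕ} (h : Good N) : BentPair N := by
  obtain ⟨ι, i1, i2, H, x, y, hc, hH, hx, hy, hxy, ho⟩ := h
  let e : Fin N ≃ ι := (Fintype.equivFinOfCardEq hc).symm
  refine ⟨H.submatrix e e, fun k a => x k (e a), fun k a => y k (e a), isHadamard_reindex e hH,
    fun k a => hx k _, fun k a => hy k _, fun k => ?_, ?_⟩
  · ext a
    have := congrFun (hxy k) (e a)
    simp only [Matrix.mulVec, dotProduct, Matrix.submatrix_apply, Pi.smul_apply, smul_eq_mul]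
      at this ⊢
    rw [← this, ← Equiv.sum_comp e]
  · rw [← ho, ← Equiv.sum_comp e]

/-- There is a regular Hadamard matrix of order `M`: all row sums are `√M`. -/
def RegularOrder (M : ℕ) : Prop :=
  ∃ H : Matrix (Fin M) (Fin M) ℝ, IsHadamard H ∧ ∀ a, ∑ b, H a b = √(M : ℝ)

lemma good_of_regular {M : ℕ} (h : RegularOrder M) : Good (M * 4) := by
  obtain ⟨H, hH, hs⟩ := h
  have h4 : √(4 : ℝ) = 2 := by
    rw [show (4 : ℝ) = 2 ^ 2 by norm_num]; exact Real.sqrt_sq (by norm_num)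
  set c : Fin 4 → ℝ := ![1, 1, -1, -1] with hc
  have hcs : ∀ j, c j = 1 ∨ c j = -1 := by
    intro j; fin_cases j <;> simp [hc]
  have hSc : ∀ i, ∑ j, S4 i j * c j = -2 * c i := by
    intro i
    fin_cases i <;> simp [Fin.sum_univ_four, S4, hc] <;> norm_num
  have hkron : IsHadamard (Matrix.kroneckerMap (· * ·) H S4) := by
    refine ⟨?_, ?_⟩
    · intro a b
      rw [Matrix.kroneckerMap_apply]
      rcases hH.1 a.1 b.1 with h | h <;> rcases S4_sign a.2 b.2 with h' | h' <;> rw [h, h'] <;>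
        norm_num
    · rw [← Matrix.kroneckerMap_transpose]
      have h1 := Matrix.mul_kronecker_mul H Hᵀ S4 S4ᵀ
      have h2 : Matrix.kroneckerMap (· * ·) (H * Hᵀ) (S4 * S4ᵀ)
          = (Fintype.card (Fin M × Fin 4) : ℝ) •
            (1 : Matrix (Fin M × Fin 4) (Fin M × Fin 4) ℝ) := by
        rw [hH.2, S4_mul]
        ext a b
        rw [Matrix.kroneckerMap_apply]
        simp only [Matrix.smul_apply, smul_eq_mul, Matrix.one_apply, Fintype.card_prod,
          Fintype.card_fin, Prod.ext_iff]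
        push_cast
        by_cases ha : a.1 = b.1 <;> by_cases hb : a.2 = b.2 <;> simp [ha, hb]
      rw [← h2]
      exact h1.symm
  have hmul : ∀ (f : Fin 4 → ℝ) (a : Fin M × Fin 4),
      (Matrix.kroneckerMap (· * ·) H S4 *ᵥ fun b => f b.2) a
        = √(M : ℝ) * ∑ j, S4 a.2 j * f j := by
    intro f a
    simp only [Matrix.mulVec, dotProduct, Matrix.kroneckerMap_apply, Fintype.sum_prod_type]
    rw [← hs a.1, Finset.sum_mul]
    refine Finset.sum_congr rfl fun b _ => ?_
    rw [Finset.mul_sum]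
    exact Finset.sum_congr rfl fun j _ => by ring
  refine ⟨Fin M × Fin 4, inferInstance, inferInstance, Matrix.kroneckerMap (· * ·) H S4,
    ![fun _ => 1, fun a => - c a.2], ![fun _ => 1, fun a => c a.2], by simp, hkron,
    ?_, ?_, ?_, ?_⟩
  · intro k a
    fin_cases k
    · left; rfl
    · rcases hcs a.2 with h | h
      · right; show - c a.2 = -1; rw [h]
      · left; show - c a.2 = 1; rw [h]; norm_num
  · intro k a
    fin_cases k
    · left; rfl
    · exact hcs a.2
  · intro k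
    have hsq : √((M * 4 : ℕ) : ℝ) = √(M : ℝ) * 2 := by
      push_cast
      rw [Real.sqrt_mul (by positivity), h4]
    rw [hsq]
    fin_cases k
    · ext a
      have h9 := hmul (fun _ => (1 : ℝ)) a
      simp only [mul_one, S4_sum] at h9
      show (Matrix.kroneckerMap (· * ·) H S4 *ᵥ fun _ => (1 : ℝ)) a = √(M : ℝ) * 2 * 1
      rw [h9, mul_one]
    · ext a
      show (Matrix.kroneckerMap (· * ·) H S4 *ᵥ fun b => c b.2) a = √(M : ℝ) * 2 * (- c a.2)
      rw [hmul, hSc]
      ring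
  · show ∑ a : Fin M × Fin 4, (1 : ℝ) * c a.2 = 0
    rw [Fintype.sum_prod_type]
    have h0 : ∑ j, (1 : ℝ) * c j = 0 := by simp [Fin.sum_univ_four, hc]
    simp only [h0, Finset.sum_const_zero]

theorem regular (M : ℕ) (hM : 1 ≤ M) (h : RegularOrder M) :
    √(((4 * M + 2 : ℕ) : ℝ) - 1) < r (4 * M + 2) := by
  have h1 := bent_of_good (good_of_regular h)
  rw [mul_comm M 4] at h1
  exact two (4 * M) (by omega) h1

lemma bentPair_pow (k : ℕ) (hk : 1 ≤ k) : BentPair (4 ^ k) := bent_of_good (good_pow k hk)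

theorem powers (k : ℕ) (hk : 1 ≤ k) (n : ℕ)
    (hn : n + 1 = 4 ^ k ∨ n = 4 ^ k ∨ n = 4 ^ k + 1 ∨ n = 4 ^ k + 2) :
    √((n : ℝ) - 1) < r n := by
  have hb := bentPair_pow k hk
  have h4 : 4 ≤ 4 ^ k := by
    calc 4 = 4 ^ 1 := by norm_num
      _ ≤ 4 ^ k := Nat.pow_le_pow_right (by norm_num) hk
  have hH : HadamardOrder (4 ^ k) := by
    obtain ⟨H, x, y, hH, -⟩ := hb
    exact ⟨H, hH⟩
  rcases hn with h | h | h | h
  · exact near n (4 ^ k) (by omega) (Or.inl h.symm) hH
  · exact near n (4 ^ k) (by omega) (Or.inr (Or.inl h.symm)) hH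
  · exact near n (4 ^ k) (by omega) (Or.inr (Or.inr h.symm)) hH
  · subst h
    exact two (4 ^ k) (by omega) hb

end Pool.Agent.Lib_helper58.SN
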