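import Mathlib
import Pool.Agent.Lib_helper58.SN.Final

/-!
# Twisted pairs: the class and its closure under tensor products
-/

open Matrix Pool.Agent.Results.MP_c77999_an.StrictMono

namespace Pool.Agent.Lib_helper58.SN

/-- There are a Hadamard matrix `H` of order `N`, vectors `x 0`, `x 1`, `y 0`, `y 1` with entries
`1`, `-1` and reals `g`, `h` with `y 0` orthogonal to `y 1`, `g² + h² = N`,
`H y_0 = g x_0 + h x_1` and `H y_1 = -h x_0 + g x_1`. -/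
def TwistedPair (N : ℕ) : Prop :=
  ∃ (H : Matrix (Fin N) (Fin N) ℝ) (x y : Fin 2 → Fin N → ℝ) (g h : ℝ), IsHadamard H ∧
    (∀ k a, x k a = 1 ∨ x k a = -1) ∧ (∀ k a, y k a = 1 ∨ y k a = -1) ∧
    ∑ a, y 0 a * y 1 a = 0 ∧ g ^ 2 + h ^ 2 = N ∧
    H *ᵥ y 0 = g • x 0 + h • x 1 ∧ H *ᵥ y 1 = (-h) • x 0 + g • x 1

/-- the same on an arbitrary finite type, the orthogonality replaced by `o` -/
def Tw (o : ∀ (ι : Type) [Fintype ι], (Fin 2 → ι → ℝ) → Prop) (N : ℕ) : Prop :=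
  ∃ (ι : Type) (_ : Fintype ι) (_ : DecidableEq ι) (H : Matrix ι ι ℝ) (x y : Fin 2 → ι → ℝ)
    (g h : ℝ), Fintype.card ι = N ∧ IsHadamard H ∧
    (∀ k a, x k a = 1 ∨ x k a = -1) ∧ (∀ k a, y k a = 1 ∨ y k a = -1) ∧
    o ι y ∧ g ^ 2 + h ^ 2 = N ∧
    H *ᵥ y 0 = g • x 0 + h • x 1 ∧ H *ᵥ y 1 = (-h) • x 0 + g • x 1

/-- no condition -/
def oT : ∀ (ι : Type) [Fintype ι], (Fin 2 → ι → ℝ) → Prop := fun _ _ _ => True

/-- orthogonality -/
def oO : ∀ (ι : Type) [Fintype ι], (Fin 2 → ι → ℝ) → Prop := fun _ _ y => ∑ a, y 0 a * y 1 a = 0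

lemma tw_weak {N : ℕ} (h : Tw oO N) : Tw oT N := by
  obtain ⟨ι, i1, i2, H, x, y, g, h, hc, hH, hx, hy, -, h'⟩ := h
  exact ⟨ι, i1, i2, H, x, y, g, h, hc, hH, hx, hy, trivial, h'⟩

lemma tw_of_pair {N : ℕ} (h : TwistedPair N) : Tw oO N := by
  obtain ⟨H, x, y, g, h, hH, hx, hy, ho, h'⟩ := h
  exact ⟨Fin N, inferInstance, inferInstance, H, x, y, g, h, by simp, hH, hx, hy, ho, h'⟩

lemma pair_of_tw {N : ℕ} (h : Tw oO N) : TwistedPair N := by
  obtain ⟨ι, i1, i2, H, x, y, g, h, hc, hH, hx, hy, ho, hgh, e0, e1⟩ := h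
  let e : Fin N ≃ ι := (Fintype.equivFinOfCardEq hc).symm
  refine ⟨H.submatrix e e, fun k a => x k (e a), fun k a => y k (e a), g, h,
    isHadamard_reindex e hH, fun k a => hx k _, fun k a => hy k _, ?_, hgh, ?_, ?_⟩
  · have ho' : ∑ a, y 0 a * y 1 a = 0 := ho
    rw [← ho', ← Equiv.sum_comp e]
  · ext a
    have := congrFun e0 (e a)
    simp only [Matrix.mulVec, dotProduct, Matrix.submatrix_apply, Pi.smul_apply, smul_eq_mul,
      Pi.add_apply] at this ⊢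
    rw [← this, ← Equiv.sum_comp e]
  · ext a
    have := congrFun e1 (e a)
    simp only [Matrix.mulVec, dotProduct, Matrix.submatrix_apply, Pi.smul_apply, smul_eq_mul,
      Pi.add_apply] at this ⊢
    rw [← this, ← Equiv.sum_comp e]

lemma tw_regular {M : ℕ} (h : RegularOrder M) : Tw oT M := by
  obtain ⟨H, hH, hs⟩ := h
  refine ⟨Fin M, inferInstance, inferInstance, H, fun _ _ => 1, fun _ _ => 1, √(M : ℝ), 0,
    by simp, hH, fun _ _ => Or.inl rfl, fun _ _ => Or.inl rfl, trivial, ?_, ?_, ?_⟩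
  · rw [Real.sq_sqrt (by positivity)]; ring
  · ext a
    have := hs a
    simp [Matrix.mulVec, dotProduct, this]
  · ext a
    have := hs a
    simp [Matrix.mulVec, dotProduct, this]

lemma kron_hadamard {ι κ : Type} [Fintype ι] [DecidableEq ι] [Fintype κ] [DecidableEq κ]
    {H : Matrix ι ι ℝ} {K : Matrix κ κ ℝ} (hH : IsHadamard H) (hK : IsHadamard K) :
    IsHadamard (Matrix.kroneckerMap (· * ·) H K) := by
  refine ⟨?_, ?_⟩
  · intro a b
    rw [Matrix.kroneckerMap_apply]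
    rcases hH.1 a.1 b.1 with h | h <;> rcases hK.1 a.2 b.2 with h' | h' <;> rw [h, h'] <;>
      norm_num
  · rw [← Matrix.kroneckerMap_transpose]
    have h1 := Matrix.mul_kronecker_mul H Hᵀ K Kᵀ
    have h2 : Matrix.kroneckerMap (· * ·) (H * Hᵀ) (K * Kᵀ)
        = (Fintype.card (ι × κ) : ℝ) • (1 : Matrix (ι × κ) (ι × κ) ℝ) := by
      rw [hH.2, hK.2]
      ext a b
      rw [Matrix.kroneckerMap_apply]
      simp only [Matrix.smul_apply, smul_eq_mul, Matrix.one_apply, Fintype.card_prod,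
        Prod.ext_iff]
      push_cast
      by_cases ha : a.1 = b.1 <;> by_cases hb : a.2 = b.2 <;> simp [ha, hb]
    rw [← h2]
    exact h1.symm

/-- `(1 - i)/2 * (p 0 + i p 1) * (q 0 + i q 1)`, as two real functions -/
noncomputable def mix {ι κ : Type} (p : Fin 2 → ι → ℝ) (q : Fin 2 → κ → ℝ) : Fin 2 → ι × κ → ℝ :=
  ![fun a => (p 0 a.1 * q 0 a.2 - p 1 a.1 * q 1 a.2 + p 0 a.1 * q 1 a.2 + p 1 a.1 * q 0 a.2) / 2,
    fun a => (p 0 a.1 * q 1 a.2 + p 1 a.1 * q 0 a.2 - p 0 a.1 * q 0 a.2 + p 1 a.1 * q 1 a.2) / 2]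

lemma mix_sign {ι κ : Type} {p : Fin 2 → ι → ℝ} {q : Fin 2 → κ → ℝ}
    (hp : ∀ k a, p k a = 1 ∨ p k a = -1) (hq : ∀ k a, q k a = 1 ∨ q k a = -1) (k : Fin 2)
    (a : ι × κ) : mix p q k a = 1 ∨ mix p q k a = -1 := by
  fin_cases k
  · show (p 0 a.1 * q 0 a.2 - p 1 a.1 * q 1 a.2 + p 0 a.1 * q 1 a.2 + p 1 a.1 * q 0 a.2) / 2 = 1 ∨
      (p 0 a.1 * q 0 a.2 - p 1 a.1 * q 1 a.2 + p 0 a.1 * q 1 a.2 + p 1 a.1 * q 0 a.2) / 2 = -1
    rcases hp 0 a.1 with h1 | h1 <;> rcases hp 1 a.1 with h2 | h2 <;>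
      rcases hq 0 a.2 with h3 | h3 <;> rcases hq 1 a.2 with h4 | h4 <;>
      rw [h1, h2, h3, h4] <;> norm_num
  · show (p 0 a.1 * q 1 a.2 + p 1 a.1 * q 0 a.2 - p 0 a.1 * q 0 a.2 + p 1 a.1 * q 1 a.2) / 2 = 1 ∨
      (p 0 a.1 * q 1 a.2 + p 1 a.1 * q 0 a.2 - p 0 a.1 * q 0 a.2 + p 1 a.1 * q 1 a.2) / 2 = -1
    rcases hp 0 a.1 with h1 | h1 <;> rcases hp 1 a.1 with h2 | h2 <;>
      rcases hq 0 a.2 with h3 | h3 <;> rcases hq 1 a.2 with h4 | h4 <;>
      rw [h1, h2, h3, h4] <;> norm_num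

lemma sq_one_of_sign {a : ℝ} (h : a = 1 ∨ a = -1) : a ^ 2 = 1 := by
  rcases h with h | h <;> rw [h] <;> norm_num

lemma mix_orth {ι κ : Type} [Fintype ι] [Fintype κ] {p : Fin 2 → ι → ℝ} {q : Fin 2 → κ → ℝ}
    (hp : ∀ k a, p k a = 1 ∨ p k a = -1) (hq : ∀ k a, q k a = 1 ∨ q k a = -1)
    (ho : ∑ b, q 0 b * q 1 b = 0) : ∑ a, mix p q 0 a * mix p q 1 a = 0 := by
  rw [Fintype.sum_prod_type]
  have key : ∀ (a : ι) (b : κ), mix p q 0 (a, b) * mix p q 1 (a, b)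
      = (p 0 a * p 1 a) * (q 0 b * q 1 b) := by
    intro a b
    show (p 0 a * q 0 b - p 1 a * q 1 b + p 0 a * q 1 b + p 1 a * q 0 b) / 2 *
      ((p 0 a * q 1 b + p 1 a * q 0 b - p 0 a * q 0 b + p 1 a * q 1 b) / 2) = _
    rcases hp 0 a with e1 | e1 <;> rcases hp 1 a with e2 | e2 <;>
      rcases hq 0 b with e3 | e3 <;> rcases hq 1 b with e4 | e4 <;>
      rw [e1, e2, e3, e4] <;> norm_num
  simp only [key, ← Finset.mul_sum, ho, mul_zero, Finset.sum_const_zero]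

/-- closure under tensor products; only one of the two pairs has to be orthogonal -/
lemma tw_mul {M N : ℕ} (h1 : Tw oT M) (h2 : Tw oO N) : Tw oO (M * N) := by
  obtain ⟨ι, i1, i2, H, x, y, g, h, hc, hH, hx, hy, -, hgh, e0, e1⟩ := h1
  obtain ⟨κ, j1, j2, K, x', y', g', h', hc', hK, hx', hy', ho, hgh', f0, f1⟩ := h2
  have ho' : ∑ b, y' 0 b * y' 1 b = 0 := ho
  have E0 : ∀ a, ∑ b, H a b * y 0 b = g * x 0 a + h * x 1 a := fun a => by
    have := congrFun e0 a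
    simpa [Matrix.mulVec, dotProduct] using this
  have E1 : ∀ a, ∑ b, H a b * y 1 b = -h * x 0 a + g * x 1 a := fun a => by
    have := congrFun e1 a
    simpa [Matrix.mulVec, dotProduct] using this
  have F0 : ∀ a, ∑ b, K a b * y' 0 b = g' * x' 0 a + h' * x' 1 a := fun a => by
    have := congrFun f0 a
    simpa [Matrix.mulVec, dotProduct] using this
  have F1 : ∀ a, ∑ b, K a b * y' 1 b = -h' * x' 0 a + g' * x' 1 a := fun a => by
    have := congrFun f1 a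
    simpa [Matrix.mulVec, dotProduct] using this
  have prodsum : ∀ (u : ι → ℝ) (v : κ → ℝ) (a : ι × κ),
      ∑ b : ι × κ, H a.1 b.1 * K a.2 b.2 * (u b.1 * v b.2)
        = (∑ b, H a.1 b * u b) * ∑ b, K a.2 b * v b := by
    intro u v a
    rw [Fintype.sum_prod_type, Finset.sum_mul]
    refine Finset.sum_congr rfl fun b _ => ?_
    rw [Finset.mul_sum]
    exact Finset.sum_congr rfl fun j _ => by ring
  refine ⟨ι × κ, inferInstance, inferInstance, Matrix.kroneckerMap (· * ·) H K, mix x x',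
    mix y y', g * g' - h * h', g * h' + h * g', by simp [hc, hc'], kron_hadamard hH hK,
    mix_sign hx hx', mix_sign hy hy', mix_orth hy hy' ho', ?_, ?_, ?_⟩
  · push_cast
    rw [← hgh, ← hgh']
    ring
  · ext a
    have e : (Matrix.kroneckerMap (· * ·) H K *ᵥ mix y y' 0) a
        = (∑ b : ι × κ, H a.1 b.1 * K a.2 b.2 * (y 0 b.1 * y' 0 b.2)
          - ∑ b : ι × κ, H a.1 b.1 * K a.2 b.2 * (y 1 b.1 * y' 1 b.2)
          + ∑ b : ι × κ, H a.1 b.1 * K a.2 b.2 * (y 0 b.1 * y' 1 b.2)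
          + ∑ b : ι × κ, H a.1 b.1 * K a.2 b.2 * (y 1 b.1 * y' 0 b.2)) / 2 := by
      simp only [Matrix.mulVec, dotProduct, Matrix.kroneckerMap_apply]
      rw [← Finset.sum_sub_distrib, ← Finset.sum_add_distrib, ← Finset.sum_add_distrib,
        Finset.sum_div]
      refine Finset.sum_congr rfl fun b _ => ?_
      show H a.1 b.1 * K a.2 b.2 * ((y 0 b.1 * y' 0 b.2 - y 1 b.1 * y' 1 b.2
        + y 0 b.1 * y' 1 b.2 + y 1 b.1 * y' 0 b.2) / 2) = _
      ring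
    rw [e, prodsum, prodsum, prodsum, prodsum, E0, E1, F0, F1]
    show _ = (g * g' - h * h') * ((x 0 a.1 * x' 0 a.2 - x 1 a.1 * x' 1 a.2 + x 0 a.1 * x' 1 a.2
      + x 1 a.1 * x' 0 a.2) / 2) + (g * h' + h * g') * ((x 0 a.1 * x' 1 a.2 + x 1 a.1 * x' 0 a.2
      - x 0 a.1 * x' 0 a.2 + x 1 a.1 * x' 1 a.2) / 2)
    ring
  · ext a
    have e : (Matrix.kroneckerMap (· * ·) H K *ᵥ mix y y' 1) a
        = (∑ b : ι × κ, H a.1 b.1 * K a.2 b.2 * (y 0 b.1 * y' 1 b.2)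
          + ∑ b : ι × κ, H a.1 b.1 * K a.2 b.2 * (y 1 b.1 * y' 0 b.2)
          - ∑ b : ι × κ, H a.1 b.1 * K a.2 b.2 * (y 0 b.1 * y' 0 b.2)
          + ∑ b : ι × κ, H a.1 b.1 * K a.2 b.2 * (y 1 b.1 * y' 1 b.2)) / 2 := by
      simp only [Matrix.mulVec, dotProduct, Matrix.kroneckerMap_apply]
      rw [← Finset.sum_add_distrib, ← Finset.sum_sub_distrib, ← Finset.sum_add_distrib,
        Finset.sum_div]
      refine Finset.sum_congr rfl fun b _ => ?_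
      show H a.1 b.1 * K a.2 b.2 * ((y 0 b.1 * y' 1 b.2 + y 1 b.1 * y' 0 b.2
        - y 0 b.1 * y' 0 b.2 + y 1 b.1 * y' 1 b.2) / 2) = _
      ring
    rw [e, prodsum, prodsum, prodsum, prodsum, E0, E1, F0, F1]
    show _ = (-(g * h' + h * g')) * ((x 0 a.1 * x' 0 a.2 - x 1 a.1 * x' 1 a.2
      + x 0 a.1 * x' 1 a.2 + x 1 a.1 * x' 0 a.2) / 2) + (g * g' - h * h') *
      ((x 0 a.1 * x' 1 a.2 + x 1 a.1 * x' 0 a.2 - x 0 a.1 * x' 0 a.2 + x 1 a.1 * x' 1 a.2) / 2)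
    ring

/-- the base of order two -/
lemma tw_two : Tw oO 2 := by
  refine ⟨Fin 2, inferInstance, inferInstance, !![1, 1; 1, -1], ![![1, -1], ![1, 1]],
    ![![1, 1], ![1, -1]], 1, 1, by simp, ⟨?_, ?_⟩, ?_, ?_, ?_, ?_, ?_, ?_⟩
  · intro a b
    fin_cases a <;> fin_cases b <;> simp
  · ext a b
    fin_cases a <;> fin_cases b <;> simp [Matrix.mul_apply, Fin.sum_univ_two] <;> norm_num
  · intro a b
    fin_cases a <;> fin_cases b <;> simp
  · intro a b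
    fin_cases a <;> fin_cases b <;> simp
  · show ∑ a, _ = _
    simp [Fin.sum_univ_two]
  · norm_num
  · ext a
    fin_cases a <;> simp [Matrix.mulVec, dotProduct, Fin.sum_univ_two] <;> norm_num
  · ext a
    fin_cases a <;> simp [Matrix.mulVec, dotProduct, Fin.sum_univ_two] <;> norm_num

lemma tw_two_pow (j : ℕ) (hj : 1 ≤ j) : Tw oO (2 ^ j) := by
  induction j, hj using Nat.le_induction with
  | base => rw [pow_one]; exact tw_two
  | succ k hk ih => rw [pow_succ]; exact tw_mul (tw_weak ih) tw_two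

end Pool.Agent.Lib_helper58.SN
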