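import Mathlib
import Pool.Agent.Lib_helper58.SN.Twist

/-!
# Periodic Golay pairs give twisted pairs
-/

open Matrix Pool.Agent.Results.MP_c77999_an.StrictMono

namespace Pool.Agent.Lib_helper58.SN

section
variable {G : Type} [AddCommGroup G] [Fintype G] [DecidableEq G]

lemma paf_sum (c : G → ℝ) : ∑ s, ∑ x, c x * c (x + s) = (∑ x, c x) ^ 2 := by
  rw [Finset.sum_comm]
  have h : ∀ x, ∑ s, c x * c (x + s) = c x * ∑ s, c s := fun x => by
    rw [← Finset.mul_sum]
    congr 1
    exact Equiv.sum_comp (Equiv.addLeft x) c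
  simp only [h, ← Finset.sum_mul]
  ring

lemma circ_mul_transpose (c : G → ℝ) (x y : G) :
    ((Matrix.of fun x y : G => c (y - x)) * (Matrix.of fun x y : G => c (y - x))ᵀ) x y
      = ∑ w, c w * c (w + (x - y)) := by
  simp only [Matrix.mul_apply, Matrix.transpose_apply, Matrix.of_apply]
  rw [← Equiv.sum_comp (Equiv.addRight x)]
  refine Finset.sum_congr rfl fun w _ => ?_
  simp only [Equiv.coe_addRight]
  rw [add_sub_cancel_right, add_sub_assoc]

lemma circ_transpose_mul (c : G → ℝ) (x y : G) :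
    ((Matrix.of fun x y : G => c (y - x))ᵀ * (Matrix.of fun x y : G => c (y - x))) x y
      = ∑ w, c w * c (w + (y - x)) := by
  simp only [Matrix.mul_apply, Matrix.transpose_apply, Matrix.of_apply]
  rw [← Equiv.sum_comp (Equiv.subLeft x)]
  refine Finset.sum_congr rfl fun w _ => ?_
  simp only [Equiv.subLeft_apply]
  congr 2 <;> abel

lemma circ_comm (a b : G → ℝ) :
    (Matrix.of fun x y : G => a (y - x)) * (Matrix.of fun x y : G => b (y - x))
      = (Matrix.of fun x y : G => b (y - x)) * (Matrix.of fun x y : G => a (y - x)) := by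
  ext x y
  simp only [Matrix.mul_apply, Matrix.of_apply]
  rw [← Equiv.sum_comp (Equiv.subLeft (x + y))]
  refine Finset.sum_congr rfl fun w _ => ?_
  simp only [Equiv.subLeft_apply]
  rw [mul_comm]
  congr 2 <;> abel

theorem tw_golay (a b : G → ℝ) (ha : ∀ x, a x = 1 ∨ a x = -1) (hb : ∀ x, b x = 1 ∨ b x = -1)
    (hab : ∀ s, s ≠ 0 → ∑ x, (a x * a (x + s) + b x * b (x + s)) = 0) :
    Tw oO (2 * Fintype.card G) := by
  have hself : ∀ c : G → ℝ, (∀ x, c x = 1 ∨ c x = -1) → ∑ x, c x * c (x + 0)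
      = Fintype.card G := by
    intro c hc
    have : ∀ x, c x * c (x + 0) = 1 := fun x => by
      rw [add_zero]; rcases hc x with h | h <;> rw [h] <;> norm_num
    rw [Finset.sum_congr rfl fun x _ => this x, Finset.sum_const, Finset.card_univ,
      nsmul_eq_mul, mul_one]
  have hs : ∀ s, ∑ x, a x * a (x + s) + ∑ x, b x * b (x + s)
      = if s = 0 then (2 * Fintype.card G : ℝ) else 0 := by
    intro s
    split_ifs with h
    · rw [h, hself a ha, hself b hb]; ring
    · rw [← Finset.sum_add_distrib]; exact hab s h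
  have hsq : (∑ x, a x) ^ 2 + (∑ x, b x) ^ 2 = 2 * Fintype.card G := by
    rw [← paf_sum a, ← paf_sum b, ← Finset.sum_add_distrib]
    simp only [hs]
    simp
  set A : Matrix G G ℝ := Matrix.of fun x y => a (y - x) with hA
  set B : Matrix G G ℝ := Matrix.of fun x y => b (y - x) with hB
  have e1 : A * Aᵀ + B * Bᵀ = (2 * Fintype.card G : ℝ) • (1 : Matrix G G ℝ) := by
    ext x y
    rw [Matrix.add_apply, hA, hB, circ_mul_transpose, circ_mul_transpose, hs]
    simp only [Matrix.smul_apply, Matrix.one_apply, smul_eq_mul, sub_eq_zero]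
    by_cases h : x = y <;> simp [h]
  have e2 : Bᵀ * B + Aᵀ * A = (2 * Fintype.card G : ℝ) • (1 : Matrix G G ℝ) := by
    ext x y
    rw [add_comm, Matrix.add_apply, hA, hB, circ_transpose_mul, circ_transpose_mul, hs]
    simp only [Matrix.smul_apply, Matrix.one_apply, smul_eq_mul, sub_eq_zero]
    by_cases h : x = y
    · simp [h]
    · simp [h, Ne.symm h]
  have e3 : A * B = B * A := circ_comm a b
  have e4 : Bᵀ * Aᵀ = Aᵀ * Bᵀ := by
    rw [← Matrix.transpose_mul, ← Matrix.transpose_mul, e3]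
  have ra : ∀ x, ∑ z, A x z = ∑ z, a z := fun x => by
    simp only [hA, Matrix.of_apply]
    exact Equiv.sum_comp (Equiv.subRight x) a
  have rb : ∀ x, ∑ z, B x z = ∑ z, b z := fun x => by
    simp only [hB, Matrix.of_apply]
    exact Equiv.sum_comp (Equiv.subRight x) b
  have ca : ∀ x, ∑ z, A z x = ∑ z, a z := fun x => by
    simp only [hA, Matrix.of_apply]
    exact Equiv.sum_comp (Equiv.subLeft x) a
  have cb : ∀ x, ∑ z, B z x = ∑ z, b z := fun x => by
    simp only [hB, Matrix.of_apply]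
    exact Equiv.sum_comp (Equiv.subLeft x) b
  refine ⟨G ⊕ G, inferInstance, inferInstance, Matrix.fromBlocks A B (-Bᵀ) Aᵀ,
    ![fun _ => 1, Sum.elim (fun _ => 1) (fun _ => -1)],
    ![fun _ => 1, Sum.elim (fun _ => 1) (fun _ => -1)], ∑ x, a x, ∑ x, b x, ?_, ⟨?_, ?_⟩,
    ?_, ?_, ?_, ?_, ?_, ?_⟩
  · rw [Fintype.card_sum]; ring
  · rintro (i | i) (j | j)
    · exact ha _
    · exact hb _
    · show -(b (i - j)) = 1 ∨ -(b (i - j)) = -1
      rcases hb (i - j) with h | h
      · right; rw [h]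
      · left; rw [h]; norm_num
    · exact ha _
  · rw [Matrix.fromBlocks_transpose, Matrix.fromBlocks_multiply]
    have hc : ((Fintype.card (G ⊕ G) : ℕ) : ℝ) = 2 * Fintype.card G := by
      rw [Fintype.card_sum]; push_cast; ring
    rw [hc, ← Matrix.fromBlocks_one, Matrix.fromBlocks_smul]
    congr 1
    · simp only [Matrix.transpose_neg, Matrix.transpose_transpose, Matrix.mul_neg, smul_zero]
      rw [e3]; exact neg_add_cancel _
    · simp only [Matrix.transpose_neg, Matrix.transpose_transpose, Matrix.neg_mul, smul_zero]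
      rw [e4]; exact neg_add_cancel _
    · simp only [Matrix.transpose_neg, Matrix.transpose_transpose, Matrix.neg_mul,
        Matrix.mul_neg, neg_neg]
      exact e2
  · intro k i
    fin_cases k
    · left; rfl
    · rcases i with i | i
      · left; rfl
      · right; rfl
  · intro k i
    fin_cases k
    · left; rfl
    · rcases i with i | i
      · left; rfl
      · right; rfl
  · show ∑ i : G ⊕ G, (1 : ℝ) * Sum.elim (fun _ => 1) (fun _ => -1) i = 0
    rw [Fintype.sum_sum_type]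
    simp
  · push_cast; exact hsq
  · ext i
    rcases i with i | i
    · show ∑ j, Matrix.fromBlocks A B (-Bᵀ) Aᵀ (Sum.inl i) j * 1 = (∑ x, a x) * 1 + (∑ x, b x) * 1
      rw [Fintype.sum_sum_type]
      simp only [Matrix.fromBlocks_apply₁₁, Matrix.fromBlocks_apply₁₂, mul_one]
      rw [ra, rb]
    · show ∑ j, Matrix.fromBlocks A B (-Bᵀ) Aᵀ (Sum.inr i) j * 1
        = (∑ x, a x) * 1 + (∑ x, b x) * (-1)
      rw [Fintype.sum_sum_type]
      simp only [Matrix.fromBlocks_apply₂₁, Matrix.fromBlocks_apply₂₂, mul_one,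
        Matrix.neg_apply, Matrix.transpose_apply, Finset.sum_neg_distrib]
      rw [ca, cb]; ring
  · ext i
    rcases i with i | i
    · show ∑ j, Matrix.fromBlocks A B (-Bᵀ) Aᵀ (Sum.inl i) j *
        Sum.elim (fun _ => 1) (fun _ => -1) j = (-(∑ x, b x)) * 1 + (∑ x, a x) * 1
      rw [Fintype.sum_sum_type]
      simp only [Matrix.fromBlocks_apply₁₁, Matrix.fromBlocks_apply₁₂, Sum.elim_inl, Sum.elim_inr,
        mul_one, mul_neg, Finset.sum_neg_distrib]
      rw [ra, rb]; ring
    · show ∑ j, Matrix.fromBlocks A B (-Bᵀ) Aᵀ (Sum.inr i) j *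
        Sum.elim (fun _ => 1) (fun _ => -1) j = (-(∑ x, b x)) * 1 + (∑ x, a x) * (-1)
      rw [Fintype.sum_sum_type]
      simp only [Matrix.fromBlocks_apply₂₁, Matrix.fromBlocks_apply₂₂, Sum.elim_inl, Sum.elim_inr,
        mul_one, mul_neg, Matrix.neg_apply, Matrix.transpose_apply, Finset.sum_neg_distrib]
      rw [ca, cb]

end

/-- There is a periodic Golay pair of length `l`. -/
def PeriodicGolay (l : ℕ) [NeZero l] : Prop :=
  ∃ a b : ZMod l → ℝ, (∀ x, a x = 1 ∨ a x = -1) ∧ (∀ x, b x = 1 ∨ b x = -1) ∧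
    ∀ s, s ≠ 0 → ∑ x, (a x * a (x + s) + b x * b (x + s)) = 0

theorem tw_periodic (l : ℕ) [NeZero l] (h : PeriodicGolay l) : Tw oO (2 * l) := by
  obtain ⟨a, b, ha, hb, hab⟩ := h
  have := tw_golay a b ha hb hab
  rwa [ZMod.card] at this

/-- the Golay pair of length ten -/
def ga10 : ZMod 10 → ℤ := ![1, 1, -1, 1, -1, 1, -1, -1, 1, 1]
def gb10 : ZMod 10 → ℤ := ![1, 1, -1, 1, 1, 1, 1, 1, -1, -1]

/-- the Golay pair of length twenty-six -/
def ga26 : ZMod 26 → ℤ := ![1, 1, 1, 1, -1, 1, 1, -1, -1, 1, -1, 1, -1, 1, -1, -1, 1, -1, 1, 1, 1,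
  -1, -1, 1, 1, 1]
def gb26 : ZMod 26 → ℤ := ![1, 1, 1, 1, -1, 1, 1, -1, -1, 1, -1, 1, 1, 1, 1, 1, -1, 1, -1, -1, -1,
  1, 1, -1, -1, -1]

lemma golay_of_int (l : ℕ) [NeZero l] (a b : ZMod l → ℤ) (ha : ∀ x, a x = 1 ∨ a x = -1)
    (hb : ∀ x, b x = 1 ∨ b x = -1)
    (hab : ∀ s, s ≠ 0 → ∑ x, (a x * a (x + s) + b x * b (x + s)) = 0) : PeriodicGolay l := by
  refine ⟨fun x => a x, fun x => b x, fun x => ?_, fun x => ?_, fun s hs => ?_⟩
  · rcases ha x with h | h <;> simp [h]
  · rcases hb x with h | h <;> simp [h]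
  · have := hab s hs
    have h2 : ((∑ x, (a x * a (x + s) + b x * b (x + s)) : ℤ) : ℝ) = 0 := by
      rw [this, Int.cast_zero]
    push_cast at h2
    exact h2

set_option maxRecDepth 100000 in
theorem golay10 : PeriodicGolay 10 :=
  golay_of_int 10 ga10 gb10 (by decide) (by decide) (by decide +kernel)

set_option maxRecDepth 100000 in
theorem golay26 : PeriodicGolay 26 :=
  golay_of_int 26 ga26 gb26 (by decide +kernel) (by decide +kernel) (by decide +kernel)

end Pool.Agent.Lib_helper58.SN
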