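import Mathlib
import Pool.Agent.Lib_helper58.SN.Golay
import Pool.Agent.Lib_helper10.GOL.Core3

/-!
# Orders `N + 2` from twisted pairs: the statements
-/

open Matrix Pool.Agent.Results.MP_c77999_an.StrictMono

namespace Pool.Agent.Lib_helper58.SN

theorem twisted (N : ℕ) (hN : 1 ≤ N) (hp : TwistedPair N) :
    √(((N + 2 : ℕ) : ℝ) - 1) < r (N + 2) := by
  obtain ⟨H, x, y, g, h, hH, hx, hy, ho, hgh, e0, e1⟩ := hp
  have E0 : ∀ a, ∑ b, H a b * y 0 b = g * x 0 a + h * x 1 a := fun a => by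
    have := congrFun e0 a
    simpa [Matrix.mulVec, dotProduct] using this
  have E1 : ∀ a, ∑ b, H a b * y 1 b = -h * x 0 a + g * x 1 a := fun a => by
    have := congrFun e1 a
    simpa [Matrix.mulVec, dotProduct] using this
  have hHH : H * Hᵀ = (N : ℝ) • (1 : Matrix (Fin N) (Fin N) ℝ) := by
    have := hH.2
    rwa [Fintype.card_fin] at this
  obtain ⟨M, A, u, hM, hA, hu, hval⟩ := Pool.Agent.Lib_helper10.GOL.core3 N (by simp) hN H hH.1
    hHH x y hx hy g h hgh E0 E1 ho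
  have h1 := lower (N + 2) (by simp) M A hM hA u u hu hu
  have h3 : ((N + 2 : ℕ) : ℝ) - 1 = N + 1 := by push_cast; ring
  rw [h3]
  exact lt_of_lt_of_le hval h1

theorem pair_two_pow (j : ℕ) (hj : 1 ≤ j) : TwistedPair (2 ^ j) := pair_of_tw (tw_two_pow j hj)

theorem pair_golay (l : ℕ) [NeZero l] (h : PeriodicGolay l) : TwistedPair (2 * l) :=
  pair_of_tw (tw_periodic l h)

theorem pair_mul (M N : ℕ) (h : TwistedPair M ∨ RegularOrder M) (h' : TwistedPair N) :
    TwistedPair (M * N) := by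
  rcases h with h | h
  · exact pair_of_tw (tw_mul (tw_weak (tw_of_pair h)) (tw_of_pair h'))
  · exact pair_of_tw (tw_mul (tw_regular h) (tw_of_pair h'))

theorem pair_pow {N : ℕ} (h : TwistedPair N) (j : ℕ) (hj : 1 ≤ j) : TwistedPair (N ^ j) := by
  induction j, hj using Nat.le_induction with
  | base => rw [pow_one]; exact h
  | succ k hk ih => rw [pow_succ]; exact pair_mul _ _ (Or.inl ih) h

theorem pair_mul_pow {M N : ℕ} (h : TwistedPair M) (h' : TwistedPair N) (j : ℕ) :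
    TwistedPair (M * N ^ j) := by
  rcases Nat.eq_zero_or_pos j with rfl | hj
  · rwa [pow_zero, mul_one]
  · exact pair_mul _ _ (Or.inl h) (pair_pow h' j hj)

theorem pair_three (a b c : ℕ) (h : 1 ≤ a + b + c) : TwistedPair (2 ^ a * 20 ^ b * 52 ^ c) := by
  have h2 : TwistedPair 2 := pair_of_tw tw_two
  have h20 : TwistedPair 20 := pair_golay 10 golay10
  have h52 : TwistedPair 52 := pair_golay 26 golay26
  rcases Nat.eq_zero_or_pos a with rfl | ha
  · rcases Nat.eq_zero_or_pos b with rfl | hb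
    · have hc : 1 ≤ c := by omega
      simpa using pair_pow h52 c hc
    · simpa using pair_mul_pow (pair_pow h20 b hb) h52 c
  · exact pair_mul_pow (pair_mul_pow (pair_pow h2 a ha) h20 b) h52 c

theorem powers_two (j : ℕ) (hj : 1 ≤ j) (n : ℕ)
    (hn : n + 1 = 2 ^ j ∨ n = 2 ^ j ∨ n = 2 ^ j + 1 ∨ n = 2 ^ j + 2) :
    √((n : ℝ) - 1) < r n := by
  have hb := pair_two_pow j hj
  have h2 : 2 ≤ 2 ^ j := by
    calc 2 = 2 ^ 1 := by norm_num
      _ ≤ 2 ^ j := Nat.pow_le_pow_right (by norm_num) hj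
  have hH : HadamardOrder (2 ^ j) := by
    obtain ⟨H, x, y, g, h, hH, -⟩ := hb
    exact ⟨H, hH⟩
  rcases hn with h | h | h | h
  · exact near n (2 ^ j) (by omega) (Or.inl h.symm) hH
  · exact near n (2 ^ j) (by omega) (Or.inr (Or.inl h.symm)) hH
  · exact near n (2 ^ j) (by omega) (Or.inr (Or.inr h.symm)) hH
  · subst h
    exact twisted (2 ^ j) (by omega) hb

theorem three (a b c : ℕ) (h : 1 ≤ a + b + c) :
    √(((2 ^ a * 20 ^ b * 52 ^ c + 2 : ℕ) : ℝ) - 1) < r (2 ^ a * 20 ^ b * 52 ^ c + 2) :=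
  twisted _ (Nat.one_le_iff_ne_zero.mpr (by positivity)) (pair_three a b c h)

end Pool.Agent.Lib_helper58.SN
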